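import Mathlib
namespace Pool.Agent.H.MP_b612d4_pr

open MeasureTheory Filter Topology Set

noncomputable section

def a (N : ℕ) (p : ℝ) : ℝ := N * p * (1 - p) ^ (N - 1)

lemma a_nonneg (N : ℕ) {p : ℝ} (h0 : 0 ≤ p) (h1 : p ≤ 1) : 0 ≤ a N p := by
  unfold a
  have : 0 ≤ 1 - p := by linarith
  positivity

lemma term_le (N i : ℕ) (hi : i ≤ N) {p : ℝ} (h0 : 0 ≤ p) (h1 : p ≤ 1) :
    p ^ i * (1 - p) ^ (N - i) * N.choose i ≤ 1 := by
  have h := add_pow p (1 - p) N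
  have e : p + (1 - p) = 1 := by ring
  rw [e, one_pow] at h
  have h2 : 0 ≤ 1 - p := by linarith
  refine le_of_le_of_eq ?_ h.symm
  exact Finset.single_le_sum (f := fun i => p ^ i * (1 - p) ^ (N - i) * (N.choose i : ℝ))
    (fun j _ => by positivity) (Finset.mem_range.2 (Nat.lt_succ_of_le hi))

lemma a_le_one (N : ℕ) {p : ℝ} (h0 : 0 ≤ p) (h1 : p ≤ 1) : a N p ≤ 1 := by
  rcases Nat.eq_zero_or_pos N with rfl | h
  · simp [a]
  · have := term_le N 1 h h0 h1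
    simp only [pow_one, Nat.choose_one_right] at this
    unfold a; linarith

lemma a_le_big (N : ℕ) (hN : 2 ≤ N) {p : ℝ} (h0 : 0 ≤ p) (h1 : p ≤ 1) : a N p ≤ 3 / 4 := by
  obtain ⟨m, rfl⟩ : ∃ m, N = m + 1 := ⟨N - 1, by omega⟩
  have hm : (1 : ℝ) ≤ m := by exact_mod_cast (by omega : 1 ≤ m)
  have e1 : (1 - p) ^ m ≤ Real.exp (-(m * p)) := by
    calc (1 - p) ^ m ≤ (Real.exp (-p)) ^ m :=
          pow_le_pow_left₀ (by linarith) (by have := Real.add_one_le_exp (-p); linarith) m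
      _ = _ := by rw [← Real.exp_nat_mul]; ring_nf
  have e2 := Real.mul_exp_neg_le_exp_neg_one (m * p)
  have e3 := Real.exp_neg_one_lt_d9
  have e4 : 0 ≤ (1 - p) ^ m := pow_nonneg (by linarith) _
  unfold a
  simp only [Nat.add_sub_cancel]
  push_cast
  have e5 : (m + 1) * p ≤ 2 * (m * p) := by nlinarith
  calc ((m : ℝ) + 1) * p * (1 - p) ^ m ≤ 2 * (m * p) * Real.exp (-(m * p)) :=
        mul_le_mul e5 e1 e4 (by positivity)
    _ ≤ 3 / 4 := by nlinarith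

lemma a_diff (N : ℕ) {p e : ℝ} (h0 : 0 ≤ p) (h1 : p ≤ 1) (he0 : 0 ≤ e) (he : e ≤ 1 / 2) :
    a N ((1 - e) * p) - a N p ≤ 8 * e := by
  have hq0 : 0 ≤ (1 - e) * p := mul_nonneg (by linarith) h0
  have hq1 : (1 - e) * p ≤ p := by nlinarith
  have hq2 : p ≤ 2 * ((1 - e) * p) := by nlinarith
  have hd : p - (1 - e) * p = e * p := by ring
  generalize (1 - e) * p = q at *
  match N with
  | 0 => simp [a]; linarith
  | 1 => simp [a]; linarith
  | k + 2 =>
    have t := term_le (k + 2) 2 (by omega) hq0 (by linarith)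
    rw [Nat.cast_choose_two] at t
    simp only [Nat.add_sub_cancel] at t
    push_cast at t
    have b := abs_pow_sub_pow_le (1 - q) (1 - p) (k + 1)
    rw [abs_of_nonneg (by linarith : 0 ≤ 1 - q - (1 - p)), abs_of_nonneg (by linarith : 0 ≤ 1 - q),
      abs_of_nonneg (by linarith : 0 ≤ 1 - p), max_eq_left (by linarith)] at b
    simp only [Nat.add_sub_cancel] at b
    push_cast at b
    have b2 := (le_abs_self _).trans b
    have e1 : 1 - q - (1 - p) = e * p := by linarith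
    rw [e1] at b2
    have hu : 0 ≤ (1 - q) ^ k := pow_nonneg (by linarith) _
    have hv : 0 ≤ (1 - q) ^ (k + 1) := pow_nonneg (by linarith) _
    unfold a
    simp only [show k + 2 - 1 = k + 1 from rfl]
    push_cast
    have hk : (0 : ℝ) ≤ k := Nat.cast_nonneg k
    have s1 : ((k : ℝ) + 2) * q * (1 - q) ^ (k + 1) ≤ (k + 2) * p * (1 - q) ^ (k + 1) := by gcongr
    have s2 : ((k : ℝ) + 2) * p * ((1 - q) ^ (k + 1) - (1 - p) ^ (k + 1)) ≤
        (k + 2) * p * (e * p * (k + 1) * (1 - q) ^ k) := by gcongr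
    have s3 : p ^ 2 ≤ (2 * q) ^ 2 := by gcongr
    have s4 : e * (((k : ℝ) + 2) * (k + 1) * (1 - q) ^ k) * p ^ 2 ≤
        e * (((k : ℝ) + 2) * (k + 1) * (1 - q) ^ k) * (2 * q) ^ 2 := by gcongr
    have s5 : e * (q ^ 2 * (1 - q) ^ k * (((k : ℝ) + 2) * (k + 2 - 1) / 2)) ≤ e * 1 := by gcongr
    nlinarith

lemma a_small {η : ℝ} (hη : 0 < η) :
    ∃ v : ℕ, ∀ N : ℕ, v < N → ∀ p : ℝ, 1 / 32 ≤ p → p ≤ 1 → a N p ≤ η := by
  have h := tendsto_self_mul_const_pow_of_lt_one (r := (31 / 32 : ℝ)) (by norm_num) (by norm_num)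
  obtain ⟨v, hv⟩ := eventually_atTop.1 (h.eventually (gt_mem_nhds (show (0 : ℝ) < η / 2 by linarith)))
  refine ⟨v, fun N hN p h0 h1 => ?_⟩
  have h2 := hv N hN.le
  obtain ⟨m, rfl⟩ : ∃ m, N = m + 1 := ⟨N - 1, by omega⟩
  unfold a
  simp only [Nat.add_sub_cancel]
  rw [pow_succ] at h2
  have h3 : (1 - p) ^ m ≤ (31 / 32 : ℝ) ^ m := pow_le_pow_left₀ (by linarith) (by linarith) m
  have h4 : 0 ≤ (1 - p) ^ m := pow_nonneg (by linarith) _
  have h5 : ((m + 1 : ℕ) : ℝ) * p * (1 - p) ^ m ≤ ((m + 1 : ℕ) : ℝ) * 1 * (31 / 32 : ℝ) ^ m := by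
    gcongr
  have h6 : 0 ≤ ((m + 1 : ℕ) : ℝ) * (31 / 32 : ℝ) ^ m := by positivity
  nlinarith

def tt (x : ℝ) : ℝ := √(√x)
def hh (x : ℝ) : ℝ := tt x ^ 3 - 1
def ee (d : ℝ) (x : ℝ) : ℝ := d / tt x

lemma tt_one {x : ℝ} (h : 1 ≤ x) : 1 ≤ tt x := Real.one_le_sqrt.2 (Real.one_le_sqrt.2 h)
lemma tt_sq (x : ℝ) : tt x ^ 2 = √x := Real.sq_sqrt (Real.sqrt_nonneg x)
lemma tt_four {x : ℝ} (h : 0 ≤ x) : tt x ^ 4 = x := by
  have : tt x ^ 4 = (tt x ^ 2) ^ 2 := by ring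
  rw [this, tt_sq, Real.sq_sqrt h]
lemma tt_mono {x y : ℝ} (h : x ≤ y) : tt x ≤ tt y := Real.sqrt_le_sqrt (Real.sqrt_le_sqrt h)
lemma tt_top : Tendsto tt atTop atTop := Real.tendsto_sqrt_atTop.comp Real.tendsto_sqrt_atTop

/-- The drift bound. -/
lemma drift {q : ℝ} (hq : 0 < q) (hq1 : q ≤ 1) : ∃ v : ℕ, ∀ N : ℕ, v < N → ∀ S : ℝ, 1 ≤ S →
    (a N ((1 - ee (q / 600) S) / S) + a N (1 / S)) / 2
      + a N ((1 - ee (q / 600) S) / S) / 2 * (64 * √(S + hh S) - 64 * √S)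
      + a N (1 / S) / 2 * (64 * √(max (S - hh S) 1) - 64 * √S) ≤ q / 4 := by
  obtain ⟨v, hv⟩ := a_small (show 0 < q / 132 by positivity)
  refine ⟨v, fun N hN S hS => ?_⟩
  have t1 := tt_one hS
  have t2 := tt_sq S
  have t4 := tt_four (show 0 ≤ S by linarith)
  have he0 : 0 ≤ ee (q / 600) S := by unfold ee; positivity
  have het : ee (q / 600) S * tt S = q / 600 := by unfold ee; field_simp
  have he1 : ee (q / 600) S ≤ q / 600 := by nlinarith
  have hp1 : 1 / S ≤ 1 := by rw [div_le_one (by linarith)]; exact hS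
  have hp0 : 0 ≤ 1 / S := by positivity
  have hd := a_diff N hp0 hp1 he0 (by linarith)
  have er : (1 - ee (q / 600) S) / S = (1 - ee (q / 600) S) * (1 / S) := by ring
  rw [er]
  have n0 := a_nonneg N (p := (1 - ee (q / 600) S) * (1 / S)) (mul_nonneg (by linarith) hp0)
    (by nlinarith)
  have n1 := a_nonneg N hp0 hp1
  have hv0 := hv N hN ((1 - ee (q / 600) S) * (1 / S))
  have hv1 := hv N hN (1 / S)
  unfold hh
  generalize ee (q / 600) S = e at *
  generalize tt S = t at *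
  have t3 : 1 ≤ t ^ 3 := one_le_pow₀ t1
  obtain ⟨z, hz⟩ : ∃ z, z = (t ^ 3 - 1) / (2 * t ^ 2) := ⟨_, rfl⟩
  have hz1 : 2 * t ^ 2 * z = t ^ 3 - 1 := by rw [hz]; field_simp
  have hz0 : 0 ≤ z := by rw [hz]; apply div_nonneg <;> nlinarith
  have tp : 0 < t ^ 2 := by positivity
  have hz2 : z ≤ t / 2 := by
    by_contra hc
    push Not at hc
    nlinarith
  have up : √(S + (t ^ 3 - 1)) ≤ t ^ 2 + z := by
    rw [Real.sqrt_le_left (by positivity)]
    nlinarith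
  have mx : max (S - (t ^ 3 - 1)) 1 = S - (t ^ 3 - 1) := max_eq_left (by nlinarith)
  rw [mx, ← t2]
  generalize a N ((1 - e) * (1 / S)) = a0 at *
  generalize a N (1 / S) = a1 at *
  rcases le_total t 2 with h2 | h2
  · have S16 : S ≤ 16 := by rw [← t4]; exact (pow_le_pow_left₀ (by linarith) h2 4).trans (by norm_num)
    have q16 : 1 / 16 ≤ 1 / S := one_div_le_one_div_of_le (by linarith) S16
    have b0 := hv0 (by nlinarith) (by nlinarith)
    have b1 := hv1 (by linarith) hp1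
    have dn : √(S - (t ^ 3 - 1)) ≤ t ^ 2 := by
      rw [Real.sqrt_le_left (by positivity)]
      nlinarith
    have s1 : a0 / 2 * (64 * √(S + (t ^ 3 - 1)) - 64 * t ^ 2) ≤ a0 / 2 * 64 := by
      gcongr; linarith
    have s2 : a1 / 2 * (64 * √(S - (t ^ 3 - 1)) - 64 * t ^ 2) ≤ a1 / 2 * 0 := by
      gcongr; linarith
    linarith
  · have hz3 : t / 4 ≤ z := by
      by_contra hc
      push Not at hc
      have : 8 ≤ t ^ 3 := le_trans (by norm_num) (pow_le_pow_left₀ (by norm_num) h2 3)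
      nlinarith
    have dn : √(S - (t ^ 3 - 1)) ≤ t ^ 2 - z - 1 / 32 := by
      rw [Real.sqrt_le_left (by nlinarith)]
      have : (t / 4) ^ 2 ≤ (z + 1 / 32) ^ 2 := pow_le_pow_left₀ (by linarith) (by linarith) 2
      nlinarith
    have s1 : a0 / 2 * (64 * √(S + (t ^ 3 - 1)) - 64 * t ^ 2) ≤ a0 / 2 * (64 * z) := by
      gcongr; linarith
    have s2 : a1 / 2 * (64 * √(S - (t ^ 3 - 1)) - 64 * t ^ 2) ≤ a1 / 2 * (-(64 * z) - 2) :=
      mul_le_mul_of_nonneg_left (by linarith) (by linarith)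
    have s3 : (a0 - a1) * (1 + 64 * z) ≤ 8 * e * (1 + 64 * z) := by gcongr
    have s4 : e * (1 + 64 * z) ≤ e * (33 * t) := by gcongr; linarith
    nlinarith

lemma stepC {S C : ℝ} (hS : 1 ≤ S) (hC : 0 ≤ C) : √(S + C) ≤ √S + C / 2 := by
  have h1 := Real.one_le_sqrt.2 hS
  have h2 := Real.sq_sqrt (show 0 ≤ S by linarith)
  rw [Real.sqrt_le_left (by positivity)]
  nlinarith

lemma a0_le (N : ℕ) {d S : ℝ} (hd : 0 < d) (hd1 : d ≤ 1 / 2) (hS : 1 ≤ S) :
    a N ((1 - ee d S) / S) ≤ 1 - d / 2 := by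
  have t1 := tt_one hS
  have t4 := tt_four (show 0 ≤ S by linarith)
  have he0 : 0 ≤ ee d S := by unfold ee; positivity
  have het : ee d S * tt S = d := by unfold ee; field_simp
  have he1 : ee d S ≤ d := by nlinarith
  have p0 : 0 ≤ (1 - ee d S) / S := div_nonneg (by linarith) (by linarith)
  have p1 : (1 - ee d S) / S ≤ 1 - ee d S := div_le_self (by linarith) hS
  match N with
  | 0 => simp [a]; linarith
  | 1 =>
    simp only [a, Nat.cast_one, one_mul, Nat.sub_self, pow_zero, mul_one]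
    rcases le_total (tt S) 2 with h2 | h2
    · nlinarith
    · have : 16 ≤ S := by
        rw [← t4]; exact le_trans (by norm_num) (pow_le_pow_left₀ (by norm_num) h2 4)
      rw [div_le_iff₀ (by linarith)]
      nlinarith
  | k + 2 => exact (a_le_big _ (by omega) p0 (by linarith)).trans (by linarith)

end

end Pool.Agent.H.MP_b612d4_pr
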