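import Mathlib
import Pool.Agent.H.MP_b612d4_pr.A
namespace Pool.Agent.H.MP_b612d4_pr

open MeasureTheory Filter Topology Set

noncomputable section

def T (ν : Measure ℕ) (C : ℝ) (h ε : ℝ → ℝ) (f : ℕ × ℝ → ℝ) (x : ℕ × ℝ) : ℝ :=
  ∫ ξ, (a x.1 ((1 - ε x.2) / x.2) / 2 * f (x.1 - 1 + ξ, x.2 + h x.2)
    + a x.1 (1 / x.2) / 2 * f (x.1 - 1 + ξ, max (x.2 - h x.2) 1)
    + (1 - (a x.1 ((1 - ε x.2) / x.2) + a x.1 (1 / x.2)) / 2) * f (x.1 + ξ, x.2 + C)) ∂ν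

def G (C : ℝ) (h ε : ℝ → ℝ) (f : ℕ × ℝ → ℝ) (x : ℕ × ℝ) (ξ : ℕ) : ℝ :=
  a x.1 ((1 - ε x.2) / x.2) / 2 * f (x.1 - 1 + ξ, x.2 + h x.2)
    + a x.1 (1 / x.2) / 2 * f (x.1 - 1 + ξ, max (x.2 - h x.2) 1)
    + (1 - (a x.1 ((1 - ε x.2) / x.2) + a x.1 (1 / x.2)) / 2) * f (x.1 + ξ, x.2 + C)

lemma T_eq (ν : Measure ℕ) (C : ℝ) (h ε : ℝ → ℝ) (f : ℕ × ℝ → ℝ) (x : ℕ × ℝ) :
    T ν C h ε f x = ∫ ξ, G C h ε f x ξ ∂ν := rfl

structure Ok (C : ℝ) (h ε : ℝ → ℝ) : Prop where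
  c : 0 ≤ C
  h : ∀ x, 1 ≤ x → 0 ≤ h x
  e0 : ∀ x, 1 ≤ x → 0 ≤ ε x
  e1 : ∀ x, 1 ≤ x → ε x ≤ 1

def Bd (f : ℕ × ℝ → ℝ) : Prop := ∃ M, ∀ y : ℕ × ℝ, 1 ≤ y.2 → |f y| ≤ M

variable {ν : Measure ℕ} [IsProbabilityMeasure ν] {C : ℝ} {h ε : ℝ → ℝ}

lemma Ok.w (o : Ok C h ε) {x : ℕ × ℝ} (hx : 1 ≤ x.2) :
    (0 ≤ a x.1 ((1 - ε x.2) / x.2) ∧ a x.1 ((1 - ε x.2) / x.2) ≤ 1) ∧
      0 ≤ a x.1 (1 / x.2) ∧ a x.1 (1 / x.2) ≤ 1 := by
  have h0 := o.e0 _ hx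
  have h1 := o.e1 _ hx
  have p0 : 0 ≤ (1 - ε x.2) / x.2 := div_nonneg (by linarith) (by linarith)
  have p1 : (1 - ε x.2) / x.2 ≤ 1 := by rw [div_le_one (by linarith)]; linarith
  have p2 : 0 ≤ 1 / x.2 := by positivity
  have p3 : 1 / x.2 ≤ 1 := by rw [div_le_one (by linarith)]; linarith
  exact ⟨⟨a_nonneg _ p0 p1, a_le_one _ p0 p1⟩, a_nonneg _ p2 p3, a_le_one _ p2 p3⟩

lemma G_mono (o : Ok C h ε) {f g : ℕ × ℝ → ℝ} (hfg : ∀ y : ℕ × ℝ, 1 ≤ y.2 → f y ≤ g y)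
    {x : ℕ × ℝ} (hx : 1 ≤ x.2) (ξ : ℕ) : G C h ε f x ξ ≤ G C h ε g x ξ := by
  obtain ⟨⟨w0, w1⟩, w2, w3⟩ := o.w hx
  have := o.h _ hx
  have := o.c
  unfold G
  refine add_le_add (add_le_add ?_ ?_) ?_
  · exact mul_le_mul_of_nonneg_left (hfg _ (by simp only; linarith)) (by linarith)
  · exact mul_le_mul_of_nonneg_left (hfg _ (le_max_right _ _)) (by linarith)
  · exact mul_le_mul_of_nonneg_left (hfg _ (by simp only; linarith)) (by linarith)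

lemma G_const (c : ℝ) (x : ℕ × ℝ) (ξ : ℕ) : G C h ε (fun _ => c) x ξ = c := by
  unfold G; ring

lemma G_bd (o : Ok C h ε) {f : ℕ × ℝ → ℝ} {M : ℝ} (hf : ∀ y : ℕ × ℝ, 1 ≤ y.2 → |f y| ≤ M)
    {x : ℕ × ℝ} (hx : 1 ≤ x.2) (ξ : ℕ) : |G C h ε f x ξ| ≤ M := by
  have h1 := G_mono o (f := f) (g := fun _ => M) (fun y hy => (abs_le.1 (hf y hy)).2) hx ξ
  have h2 := G_mono o (g := f) (f := fun _ => -M) (fun y hy => (abs_le.1 (hf y hy)).1) hx ξ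
  rw [G_const] at h1 h2
  exact abs_le.2 ⟨h2, h1⟩

lemma G_int (o : Ok C h ε) {f : ℕ × ℝ → ℝ} (hf : Bd f) {x : ℕ × ℝ} (hx : 1 ≤ x.2) :
    Integrable (G C h ε f x) ν := by
  obtain ⟨M, hM⟩ := hf
  exact Integrable.of_bound (Measurable.of_discrete.aestronglyMeasurable) M
    (ae_of_all _ fun ξ => G_bd o hM hx ξ)

lemma T_bd (o : Ok C h ε) {f : ℕ × ℝ → ℝ} (hf : Bd f) : Bd (T ν C h ε f) := by
  obtain ⟨M, hM⟩ := hf
  refine ⟨M, fun x hx => ?_⟩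
  have := norm_integral_le_of_norm_le_const (μ := ν) (f := G C h ε f x) (C := M)
    (ae_of_all _ fun ξ => G_bd o hM hx ξ)
  simpa [T_eq] using this

lemma it_bd (o : Ok C h ε) {f : ℕ × ℝ → ℝ} (hf : Bd f) (n : ℕ) : Bd ((T ν C h ε)^[n] f) := by
  induction n with
  | zero => exact hf
  | succ n ih => rw [Function.iterate_succ_apply']; exact T_bd o ih

lemma Bd.lin {f g k : ℕ × ℝ → ℝ} (hf : Bd f) (hg : Bd g) (hk : Bd k) (b c : ℝ) :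
    Bd fun y => f y + b * g y + c * k y := by
  obtain ⟨M, hM⟩ := hf
  obtain ⟨M', hM'⟩ := hg
  obtain ⟨M'', hM''⟩ := hk
  refine ⟨M + |b| * M' + |c| * M'', fun y hy => ?_⟩
  refine (abs_add_le _ _).trans (add_le_add ((abs_add_le _ _).trans (add_le_add (hM y hy) ?_)) ?_)
  · rw [abs_mul]; exact mul_le_mul_of_nonneg_left (hM' y hy) (abs_nonneg _)
  · rw [abs_mul]; exact mul_le_mul_of_nonneg_left (hM'' y hy) (abs_nonneg _)

/-- positivity and linearity of the iterates, in one inequality -/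
lemma it_le (o : Ok C h ε) {f g k u : ℕ × ℝ → ℝ} (hf : Bd f) (hg : Bd g) (hk : Bd k) (hu : Bd u)
    (b c : ℝ) (H : ∀ y : ℕ × ℝ, 1 ≤ y.2 → f y + b * g y + c * k y ≤ u y) (n : ℕ) :
    ∀ x : ℕ × ℝ, 1 ≤ x.2 → (T ν C h ε)^[n] f x + b * (T ν C h ε)^[n] g x
      + c * (T ν C h ε)^[n] k x ≤ (T ν C h ε)^[n] u x := by
  induction n with
  | zero => exact H
  | succ n ih =>
    intro x hx
    simp only [Function.iterate_succ_apply', T_eq]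
    have i1 := G_int (ν := ν) o (it_bd (ν := ν) o hf n) hx
    have i2 := G_int (ν := ν) o (it_bd (ν := ν) o hg n) hx
    have i3 := G_int (ν := ν) o (it_bd (ν := ν) o hk n) hx
    have i4 := G_int (ν := ν) o (it_bd (ν := ν) o hu n) hx
    have i5 : Integrable (fun ξ => G C h ε ((T ν C h ε)^[n] f) x ξ
      + b * G C h ε ((T ν C h ε)^[n] g) x ξ) ν := i1.add (i2.const_mul b)
    rw [← integral_const_mul, ← integral_const_mul, ← integral_add i1 (i2.const_mul b),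
      ← integral_add i5 (i3.const_mul c)]
    refine integral_mono (i5.add (i3.const_mul c)) i4 fun ξ => ?_
    refine le_trans (le_of_eq ?_) (G_mono o ih hx ξ)
    simp only [G]; ring

lemma it_abs (o : Ok C h ε) {f : ℕ × ℝ → ℝ} {M : ℝ} (hf : ∀ y : ℕ × ℝ, 1 ≤ y.2 → |f y| ≤ M)
    (n : ℕ) : ∀ x : ℕ × ℝ, 1 ≤ x.2 → |(T ν C h ε)^[n] f x| ≤ M := by
  induction n with
  | zero => exact hf
  | succ n ih =>
    intro x hx
    rw [Function.iterate_succ_apply']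
    have := norm_integral_le_of_norm_le_const (μ := ν) (f := G C h ε ((T ν C h ε)^[n] f) x)
      (C := M) (ae_of_all _ fun ξ => G_bd o ih hx ξ)
    simpa [T_eq] using this

def ind (A : Set (ℝ × ℝ)) (y : ℕ × ℝ) : ℝ := A.indicator 1 ((y.1 : ℝ), y.2)

lemma ind_bd (A : Set (ℝ × ℝ)) : Bd (ind A) := by
  refine ⟨1, fun y _ => ?_⟩
  unfold ind
  by_cases hy : ((y.1 : ℝ), y.2) ∈ A <;> simp [hy]

lemma ind_nonneg (A : Set (ℝ × ℝ)) (y : ℕ × ℝ) : 0 ≤ ind A y := by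
  unfold ind
  by_cases hy : ((y.1 : ℝ), y.2) ∈ A <;> simp [hy]

lemma ind_mem {A : Set (ℝ × ℝ)} {y : ℕ × ℝ} (hy : ((y.1 : ℝ), y.2) ∈ A) : ind A y = 1 := by
  simp [ind, hy]

lemma ind_not {A : Set (ℝ × ℝ)} {y : ℕ × ℝ} (hy : ((y.1 : ℝ), y.2) ∉ A) : ind A y = 0 := by
  simp [ind, hy]

/-- a bounded sequence cannot have increments eventually bounded below by a positive limit -/
lemma seq {u d : ℕ → ℝ} {M l : ℝ} (hu : ∀ n, |u n| ≤ M) (hd : ∀ n, u n + d n ≤ u (n + 1))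
    (hl : Tendsto d atTop (𝓝 l)) : l ≤ 0 := by
  by_contra hc
  push Not at hc
  obtain ⟨n0, h0⟩ := eventually_atTop.1 (hl.eventually (lt_mem_nhds (half_lt_self hc)))
  have key : ∀ m : ℕ, u n0 + m * (l / 2) ≤ u (n0 + m) := by
    intro m
    induction m with
    | zero => simp
    | succ m ih =>
      have := hd (n0 + m)
      have := h0 (n0 + m) (by omega)
      rw [← add_assoc]; push_cast; linarith
  obtain ⟨m, hm⟩ := exists_nat_gt (2 * M / (l / 2))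
  rw [div_lt_iff₀ (by linarith)] at hm
  have := key m
  have := abs_le.1 (hu n0)
  have := abs_le.1 (hu (n0 + m))
  linarith

def mn (ξ : ℕ) : ℝ := ((min ξ 1 : ℕ) : ℝ)

lemma mn_int : Integrable mn ν :=
  Integrable.of_bound (Measurable.of_discrete.aestronglyMeasurable) 1
    (ae_of_all _ fun ξ => by
      unfold mn
      rw [Real.norm_eq_abs, abs_of_nonneg (Nat.cast_nonneg _)]
      exact_mod_cast min_le_right _ _)

lemma q_pos (hm : 0 < ∫ ξ, (ξ : ℝ) ∂ν) : 0 < ∫ ξ, mn ξ ∂ν ∧ ∫ ξ, mn ξ ∂ν ≤ 1 := by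
  constructor
  · by_contra hc
    have h0 : ∫ ξ, mn ξ ∂ν = 0 :=
      le_antisymm (not_lt.1 hc) (integral_nonneg fun ξ => Nat.cast_nonneg _)
    rw [integral_eq_zero_iff_of_nonneg (f := mn) (fun ξ => Nat.cast_nonneg _) mn_int] at h0
    have : ∫ ξ, (ξ : ℝ) ∂ν = 0 := by
      refine integral_eq_zero_of_ae (h0.mono fun ξ hξ => ?_)
      simp only [mn, Pi.zero_apply, Nat.cast_eq_zero] at hξ ⊢
      omega
    linarith
  · have := integral_mono (μ := ν) mn_int (integrable_const (1 : ℝ)) fun ξ => by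
      show ((min ξ 1 : ℕ) : ℝ) ≤ 1
      exact_mod_cast min_le_right _ _
    simpa using this

end

end Pool.Agent.H.MP_b612d4_pr
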