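import Mathlib
import Pool.Agent.H.MP_b612d4_pr.B
namespace Pool.Agent.H.MP_b612d4_pr

open MeasureTheory Filter Topology Set

noncomputable section

variable {ν : Measure ℕ} [IsProbabilityMeasure ν]

lemma ok {q : ℝ} (hq : 0 < q) (hq1 : q ≤ 1) : Ok (q / 256) hh (ee (q / 600)) where
  c := by positivity
  h x hx := by have := one_le_pow₀ (n := 3) (tt_one hx); unfold hh; linarith
  e0 x hx := by have := tt_one hx; unfold ee; positivity
  e1 x hx := by
    have := tt_one hx; unfold ee; rw [div_le_one (by linarith)]; linarith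

def BB (v : ℝ) : Set (ℝ × ℝ) := {y | v < y.1 - 64 * √y.2}
def UU (M : ℕ) : Set (ℝ × ℝ) := {y | (M : ℝ) ≤ y.1}

lemma BB_meas (v : ℝ) : MeasurableSet (BB v) := measurableSet_lt (by fun_prop) (by fun_prop)
lemma UU_meas (M : ℕ) : MeasurableSet (UU M) := measurableSet_le (by fun_prop) (by fun_prop)

def ff (v M : ℕ) (y : ℕ × ℝ) : ℝ := max (((min y.1 M : ℕ) : ℝ) - 64 * √y.2) v

lemma ff_abs (v M : ℕ) (y : ℕ × ℝ) : |ff v M y| ≤ v + M := by
  have h1 : ((min y.1 M : ℕ) : ℝ) ≤ M := by exact_mod_cast min_le_right _ _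
  have h2 := Real.sqrt_nonneg y.2
  have h3 : (0 : ℝ) ≤ v := Nat.cast_nonneg _
  have h4 : (0 : ℝ) ≤ M := Nat.cast_nonneg _
  have h5 : (v : ℝ) ≤ ff v M y := le_max_right _ _
  have h6 : ff v M y ≤ v + M := max_le (by linarith) (by linarith)
  rw [abs_le]; constructor <;> linarith

lemma lyap {q : ℝ} (hq : 0 < q) (hq1 : q ≤ 1) (hi : ∫ ξ, mn ξ ∂ν = q) :
    ∃ v : ℕ, ∀ M : ℕ, ∀ y : ℕ × ℝ, 1 ≤ y.2 →
      ff v M y + q / 2 * ind (BB v) y + (-q) * ind (UU M) y
        ≤ T ν (q / 256) hh (ee (q / 600)) (ff v M) y := by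
  obtain ⟨v, hv⟩ := drift hq hq1
  refine ⟨v, fun M y hy => ?_⟩
  have o := ok hq hq1
  have bd : Bd (ff v M) := ⟨_, fun y _ => ff_abs v M y⟩
  have gi := G_int (ν := ν) o bd hy
  obtain ⟨N, S⟩ := y
  simp only at hy
  have hs := Real.sqrt_nonneg S
  by_cases hw : (v : ℝ) < ((min N M : ℕ) : ℝ) - 64 * √S
  · have hf : ff v M (N, S) = ((min N M : ℕ) : ℝ) - 64 * √S := max_eq_left hw.le
    have hN : v < min N M := by
      have : (v : ℝ) < ((min N M : ℕ) : ℝ) := by linarith
      exact_mod_cast this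
    have d := hv N (by omega) S hy
    have c := stepC hy o.c
    obtain ⟨⟨w0, w1⟩, w2, w3⟩ := o.w (x := (N, S)) hy
    simp only at w0 w1 w2 w3
    have key : ∀ (e : ℝ) (ξ : ℕ), ((min N M : ℕ) : ℝ) + e - 1 ≤ ((min (N - 1 + ξ) M : ℕ) : ℝ) →
        ((min N M : ℕ) : ℝ) + e ≤ ((min (N + ξ) M : ℕ) : ℝ) →
        ff v M (N, S) + e - q / 2 ≤ G (q / 256) hh (ee (q / 600)) (ff v M) (N, S) ξ := by
      intro e ξ h1 h2
      have f1 : ((min (N - 1 + ξ) M : ℕ) : ℝ) - 64 * √(S + hh S) ≤ ff v M (N - 1 + ξ, S + hh S) :=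
        le_max_left _ _
      have f2 : ((min (N - 1 + ξ) M : ℕ) : ℝ) - 64 * √(max (S - hh S) 1)
        ≤ ff v M (N - 1 + ξ, max (S - hh S) 1) := le_max_left _ _
      have f3 : ((min (N + ξ) M : ℕ) : ℝ) - 64 * √(S + q / 256) ≤ ff v M (N + ξ, S + q / 256) :=
        le_max_left _ _
      rw [hf]
      simp only [G]
      generalize a N ((1 - ee (q / 600) S) / S) = a0 at *
      generalize a N (1 / S) = a1 at *
      have g1 := mul_le_mul_of_nonneg_left (show ((min N M : ℕ) : ℝ) + e - 1 - 64 * √(S + hh S)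
        ≤ ff v M (N - 1 + ξ, S + hh S) by linarith) (show 0 ≤ a0 / 2 by linarith)
      have g2 := mul_le_mul_of_nonneg_left (show ((min N M : ℕ) : ℝ) + e - 1
        - 64 * √(max (S - hh S) 1) ≤ ff v M (N - 1 + ξ, max (S - hh S) 1) by linarith)
        (show 0 ≤ a1 / 2 by linarith)
      have g3 := mul_le_mul_of_nonneg_left (show ((min N M : ℕ) : ℝ) + e - 64 * √S - q / 8
        ≤ ff v M (N + ξ, S + q / 256) by linarith) (show 0 ≤ 1 - (a0 + a1) / 2 by linarith)
      have g4 : 0 ≤ (a0 + a1) / 2 * (q / 8) := by positivity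
      nlinarith
    have hb : ind (BB v) (N, S) ≤ 1 := by
      by_cases hm : ((N : ℝ), S) ∈ BB v
      · rw [ind_mem (y := (N, S)) hm]
      · rw [ind_not (y := (N, S)) hm]; norm_num
    rcases lt_or_ge N M with hNM | hNM
    · have hu : ind (UU M) (N, S) = 0 := ind_not (by
        simp only [UU, Set.mem_ofPred_eq, not_le]; exact_mod_cast hNM)
      have i1 : Integrable (fun ξ => ff v M (N, S) + mn ξ) ν := (integrable_const _).add mn_int
      have := integral_mono (μ := ν) (f := fun ξ => ff v M (N, S) + mn ξ - q / 2)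
        (i1.sub (integrable_const _)) gi fun ξ => key (mn ξ) ξ
          (by
            have : min N M + min ξ 1 ≤ min (N - 1 + ξ) M + 1 := by omega
            have : ((min N M : ℕ) : ℝ) + ((min ξ 1 : ℕ) : ℝ) ≤ ((min (N - 1 + ξ) M : ℕ) : ℝ) + 1 := by
              exact_mod_cast this
            unfold mn; linarith)
          (by
            have : min N M + min ξ 1 ≤ min (N + ξ) M := by omega
            unfold mn; exact_mod_cast this)
      rw [integral_sub i1 (integrable_const _), integral_add (integrable_const _) mn_int, hi] at this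
      simp only [integral_const, probReal_univ, one_smul] at this
      rw [T_eq, hu]
      nlinarith
    · have hu : ind (UU M) (N, S) = 1 := ind_mem (by
        simp only [UU, Set.mem_ofPred_eq]; exact_mod_cast hNM)
      have := integral_mono (μ := ν) (f := fun _ => ff v M (N, S) + 0 - q / 2)
        (integrable_const _) gi fun ξ => key 0 ξ
          (by
            have : min N M ≤ min (N - 1 + ξ) M + 1 := by omega
            have : ((min N M : ℕ) : ℝ) ≤ ((min (N - 1 + ξ) M : ℕ) : ℝ) + 1 := by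
              exact_mod_cast this
            linarith)
          (by
            have : min N M ≤ min (N + ξ) M := by omega
            rw [add_zero]; exact_mod_cast this)
      simp only [integral_const, probReal_univ, one_smul] at this
      rw [T_eq, hu]
      nlinarith
  · have hf : ff v M (N, S) = v := max_eq_right (not_lt.1 hw)
    have := integral_mono (μ := ν) (f := fun _ => (v : ℝ)) (integrable_const _) gi fun ξ => by
      have := G_mono o (f := fun _ => (v : ℝ)) (g := ff v M) (fun y _ => le_max_right _ _)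
        (x := (N, S)) hy ξ
      rwa [G_const] at this
    simp only [integral_const, probReal_univ, one_smul] at this
    rw [T_eq, hf]
    have hu0 := ind_nonneg (UU M) (N, S)
    by_cases hm : ((N : ℝ), S) ∈ BB v
    · have hNM : M ≤ N := by
        by_contra hc
        rw [min_eq_left (by omega)] at hw
        exact hw hm
      have hu : ind (UU M) (N, S) = 1 := ind_mem (by
        simp only [UU, Set.mem_ofPred_eq]; exact_mod_cast hNM)
      rw [ind_mem (y := (N, S)) hm, hu]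
      linarith
    · rw [ind_not (y := (N, S)) hm]
      nlinarith

lemma reach {q : ℝ} (hq : 0 < q) (hq1 : q ≤ 1) (hi : ∫ ξ, mn ξ ∂ν = q) (v : ℝ) (y : ℕ × ℝ)
    (hy : 1 ≤ y.2) : q / 2400 * q * ind (BB (v - 1 / 2)) y
        ≤ T ν (q / 256) hh (ee (q / 600)) (ind (BB v)) y := by
  have o := ok hq hq1
  have gi := G_int (ν := ν) o (ind_bd (BB v)) hy
  obtain ⟨N, S⟩ := y
  simp only at hy
  obtain ⟨⟨w0, w1⟩, w2, w3⟩ := o.w (x := (N, S)) hy
  simp only at w0 w1 w2 w3
  have w4 := a0_le N (show 0 < q / 600 by positivity) (by linarith) hy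
  have c := stepC hy o.c
  have := integral_mono (μ := ν) (f := fun ξ => q / 2400 * ind (BB (v - 1 / 2)) (N, S) * mn ξ)
    (mn_int.const_mul _) gi fun ξ => by
      have n1 := ind_nonneg (BB v) (N - 1 + ξ, S + hh S)
      have n2 := ind_nonneg (BB v) (N - 1 + ξ, max (S - hh S) 1)
      have n3 : ind (BB (v - 1 / 2)) (N, S) * mn ξ ≤ ind (BB v) (N + ξ, S + q / 256) := by
        by_cases hm : ((N : ℝ), S) ∈ BB (v - 1 / 2)
        · rcases Nat.eq_zero_or_pos ξ with rfl | hξ
          · simpa [mn] using ind_nonneg (BB v) (N, S + q / 256)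
          · have h1 : (1 : ℝ) ≤ ξ := by exact_mod_cast hξ
            rw [ind_mem (y := (N, S)) hm, ind_mem (y := (N + ξ, S + q / 256))]
            · simp [mn]
            · simp only [BB, Set.mem_ofPred_eq] at hm ⊢
              push_cast; linarith
        · rw [ind_not (y := (N, S)) hm, zero_mul]; exact ind_nonneg _ _
      have n4 := ind_nonneg (BB v) (N + ξ, S + q / 256)
      simp only [G]
      generalize a N ((1 - ee (q / 600) S) / S) = a0 at *
      generalize a N (1 / S) = a1 at *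
      have g1 : 0 ≤ a0 / 2 * ind (BB v) (N - 1 + ξ, S + hh S) := by positivity
      have g2 : 0 ≤ a1 / 2 * ind (BB v) (N - 1 + ξ, max (S - hh S) 1) := by positivity
      have g3 := mul_le_mul_of_nonneg_right (show q / 2400 ≤ 1 - (a0 + a1) / 2 by linarith) n4
      have g4 := mul_le_mul_of_nonneg_left n3 (show 0 ≤ q / 2400 by positivity)
      nlinarith
  rw [integral_const_mul, hi] at this
  rw [T_eq]
  linarith

lemma nolim {q : ℝ} (hq : 0 < q) (hq1 : q ≤ 1) (hi : ∫ ξ, mn ξ ∂ν = q) (x : ℕ × ℝ) (hx : 1 ≤ x.2)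
    (μ : Measure (ℝ × ℝ)) [IsProbabilityMeasure μ]
    (H : ∀ A, MeasurableSet A → Tendsto (fun n => (T ν (q / 256) hh (ee (q / 600)))^[n] (ind A) x)
      atTop (𝓝 (μ.real A))) : False := by
  have o := ok hq hq1
  obtain ⟨v, hv⟩ := lyap hq hq1 hi
  have s1 : ∀ M : ℕ, μ.real (BB v) ≤ 2 * μ.real (UU M) := by
    intro M
    have bd : Bd (ff v M) := ⟨_, fun y _ => ff_abs v M y⟩
    have := seq (u := fun n => (T ν (q / 256) hh (ee (q / 600)))^[n] (ff v M) x)
      (fun n => it_abs o (fun y _ => ff_abs v M y) n x hx)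
      (fun n => by
        have := it_le (ν := ν) o bd (ind_bd (BB v)) (ind_bd (UU M)) (T_bd o bd) _ _ (hv M) n x hx
        rw [Function.iterate_succ_apply, ← add_assoc]
        exact this)
      (((H _ (BB_meas v)).const_mul (q / 2)).add ((H _ (UU_meas M)).const_mul (-q)))
    by_contra hc
    push Not at hc
    nlinarith
  have s2 : Tendsto (fun M : ℕ => μ.real (UU M)) atTop (𝓝 0) := by
    have h1 := tendsto_measure_iInter_atTop (μ := μ) (s := UU)
      (fun M => (UU_meas M).nullMeasurableSet)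
      (fun i j hij y hy => le_trans (by exact_mod_cast hij : (i : ℝ) ≤ j) hy) ⟨0, measure_ne_top _ _⟩
    have h2 : ⋂ M, UU M = ∅ := by
      refine Set.eq_empty_of_forall_notMem fun y hy => ?_
      obtain ⟨M, hM⟩ := exists_nat_gt y.1
      exact absurd (Set.mem_iInter.1 hy M) (not_le.2 hM)
    rw [h2, measure_empty] at h1
    exact (ENNReal.tendsto_toReal ENNReal.zero_ne_top).comp h1
  have s3 : μ.real (BB v) ≤ 0 := by
    have := ge_of_tendsto' (s2.const_mul 2) s1
    linarith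
  have s4 : ∀ w : ℝ, q / 2400 * q * μ.real (BB (w - 1 / 2)) ≤ μ.real (BB w) := by
    intro w
    refine le_of_tendsto_of_tendsto' ((H _ (BB_meas _)).const_mul _)
      ((H _ (BB_meas w)).comp (tendsto_add_atTop_nat 1)) fun n => ?_
    have z : Bd (fun _ => (0 : ℝ)) := ⟨0, fun _ _ => by simp⟩
    have := it_le (ν := ν) o z (ind_bd (BB (w - 1 / 2))) z (T_bd o (ind_bd (BB w)))
      (q / 2400 * q) 0 (fun y hy => by simpa using reach hq hq1 hi w y hy) n x hx
    have z0 := it_abs (ν := ν) o (f := fun _ => (0 : ℝ)) (M := 0) (fun _ _ => by simp) n x hx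
    rw [abs_nonpos_iff] at z0
    simp only [Function.comp, Function.iterate_succ_apply]
    rw [z0] at this
    linarith
  have s5 : ∀ k : ℕ, μ.real (BB (v - k / 2)) ≤ 0 := by
    intro k
    induction k with
    | zero => simpa using s3
    | succ k ih =>
      have := s4 (v - k / 2)
      have e : (v : ℝ) - ((k + 1 : ℕ) : ℝ) / 2 = v - k / 2 - 1 / 2 := by push_cast; ring
      rw [e]
      by_contra hc
      push Not at hc
      have : 0 < q / 2400 * q * μ.real (BB (v - k / 2 - 1 / 2)) := by positivity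
      linarith
  have s6 : μ (⋃ k : ℕ, BB (v - k / 2)) = 0 := measure_iUnion_null fun k => by
    have := le_antisymm (s5 k) measureReal_nonneg
    rwa [measureReal_eq_zero_iff] at this
  have s7 : ⋃ k : ℕ, BB (v - k / 2) = univ := by
    refine Set.eq_univ_of_forall fun y => ?_
    obtain ⟨k, hk⟩ := exists_nat_gt (2 * (v - (y.1 - 64 * √y.2)))
    exact Set.mem_iUnion.2 ⟨k, by simp only [BB, Set.mem_ofPred_eq]; linarith⟩
  rw [s7, measure_univ] at s6
  exact one_ne_zero s6

def InH (h : ℝ → ℝ) : Prop :=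
  h 1 = 0 ∧ (∀ x, 1 ≤ x → 0 ≤ h x) ∧ MonotoneOn h (Ici 1) ∧ Tendsto h atTop atTop ∧
    MonotoneOn (fun x => x - h x) (Ici 1) ∧ Tendsto (fun x => x - h x) atTop atTop ∧
    Tendsto (fun x => h x / x) atTop (𝓝 0)

def InE (h ε : ℝ → ℝ) : Prop :=
  (∀ x, 1 ≤ x → 0 < ε x ∧ ε x ≤ 1 / 2) ∧ Tendsto ε atTop (𝓝 0) ∧
    Tendsto (fun x => h x * ε x ^ 2) atTop atTop

lemma t1top : Tendsto (fun x => tt x - 1) atTop atTop :=
  tendsto_atTop_add_const_right _ (-1) tt_top

lemma inH : InH hh := by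
  refine ⟨by simp [hh, tt], (ok one_pos le_rfl).h, fun x hx y hy hxy => ?_, ?_,
    fun x hx y hy hxy => ?_, ?_, ?_⟩
  · have := tt_one hx
    have := pow_le_pow_left₀ (by linarith) (tt_mono hxy) 3
    unfold hh; linarith
  · refine tendsto_atTop_mono' _ ((eventually_ge_atTop 1).mono fun x hx => ?_) t1top
    have := tt_one hx
    unfold hh; nlinarith [mul_nonneg (sub_nonneg.2 this) (sub_nonneg.2 this)]
  · have h1 := tt_one hx
    have h2 := tt_mono hxy
    have h3 := tt_four (show 0 ≤ x by have : (1 : ℝ) ≤ x := hx; linarith)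
    have h4 := tt_four (show 0 ≤ y by have : (1 : ℝ) ≤ y := hy; linarith)
    have : tt x ^ 3 * (tt x - 1) ≤ tt y ^ 3 * (tt y - 1) :=
      mul_le_mul (pow_le_pow_left₀ (by linarith) h2 3) (by linarith) (by linarith)
        (pow_nonneg (by linarith) 3)
    simp only [hh]; nlinarith
  · refine tendsto_atTop_mono' _ ((eventually_ge_atTop 1).mono fun x hx => ?_) t1top
    have h1 := tt_one hx
    have h3 := tt_four (show 0 ≤ x by linarith)
    have := mul_le_mul_of_nonneg_right (one_le_pow₀ (n := 3) h1) (sub_nonneg.2 h1)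
    simp only [hh]; nlinarith
  · refine tendsto_of_tendsto_of_tendsto_of_le_of_le' tendsto_const_nhds tt_top.inv_tendsto_atTop
      ((eventually_ge_atTop 1).mono fun x hx => ?_) ((eventually_ge_atTop 1).mono fun x hx => ?_)
    · exact div_nonneg ((ok one_pos le_rfl).h x hx) (by linarith)
    · have h1 := tt_one hx
      have h3 := tt_four (show 0 ≤ x by linarith)
      simp only [Pi.inv_apply, hh]
      rw [div_le_iff₀ (by linarith), ← div_eq_inv_mul, le_div_iff₀ (by linarith)]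
      nlinarith

lemma inE {d : ℝ} (hd : 0 < d) (hd1 : d ≤ 1 / 2) : InE hh (ee d) := by
  refine ⟨fun x hx => ?_, tt_top.const_div_atTop d, ?_⟩
  · have := tt_one hx
    unfold ee
    exact ⟨by positivity, (div_le_self hd.le this).trans hd1⟩
  · refine tendsto_atTop_mono' _ ((eventually_ge_atTop 1).mono fun x hx => ?_)
      (t1top.const_mul_atTop (show 0 < d ^ 2 by positivity))
    have h1 := tt_one hx
    simp only [hh, ee]
    rw [div_pow, ← mul_div_assoc, le_div_iff₀ (by positivity)]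
    have := mul_le_mul_of_nonneg_left (one_le_pow₀ (n := 2) h1) (show 0 ≤ d ^ 2 by positivity)
    nlinarith

theorem main1 (ν : Measure ℕ) [IsProbabilityMeasure ν] (hm : 0 < ∫ ξ, (ξ : ℝ) ∂ν) :
    ∃ (C : ℝ) (h ε : ℝ → ℝ), 0 < C ∧ InH h ∧ InE h ε ∧ ∀ x : ℕ × ℝ, 1 ≤ x.2 →
      ¬ ∃ μ : Measure (ℝ × ℝ), IsProbabilityMeasure μ ∧ ∀ A, MeasurableSet A →
        Tendsto (fun n => (T ν C h ε)^[n] (fun y => A.indicator 1 ((y.1 : ℝ), y.2)) x)
          atTop (𝓝 (μ.real A)) := by
  obtain ⟨hq, hq1⟩ := q_pos hm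
  refine ⟨(∫ ξ, mn ξ ∂ν) / 256, hh, ee ((∫ ξ, mn ξ ∂ν) / 600), by positivity, inH, inE (by positivity) (by linarith), ?_⟩
  rintro x hx ⟨μ, hμ, H⟩
  exact nolim hq hq1 rfl x hx μ H

lemma ex : ∃ ν : Measure ℕ, IsProbabilityMeasure ν ∧ Integrable (fun ξ : ℕ => (ξ : ℝ)) ν ∧
    0 < ∫ ξ, (ξ : ℝ) ∂ν ∧ ∫ ξ, (ξ : ℝ) ∂ν < Real.exp (-1) := by
  have i0 : Integrable (fun ξ : ℕ => (ξ : ℝ)) (((3 / 4 : NNReal)) • Measure.dirac 0) :=
    (integrable_dirac (by simp)).smul_measure_nnreal
  have i1 : Integrable (fun ξ : ℕ => (ξ : ℝ)) (((1 / 4 : NNReal)) • Measure.dirac 1) :=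
    (integrable_dirac (by simp)).smul_measure_nnreal
  have e : ∫ ξ : ℕ, (ξ : ℝ) ∂(((3 / 4 : NNReal)) • Measure.dirac 0
      + ((1 / 4 : NNReal)) • Measure.dirac 1) = 1 / 4 := by
    rw [integral_add_measure i0 i1]
    simp [NNReal.smul_def]
  refine ⟨((3 / 4 : NNReal)) • Measure.dirac 0 + ((1 / 4 : NNReal)) • Measure.dirac 1, ⟨?_⟩,
    i0.add_measure i1, by rw [e]; norm_num, ?_⟩
  · simp only [Measure.add_apply, Measure.coe_nnreal_smul_apply, measure_univ, mul_one]
    rw [← ENNReal.coe_add]; norm_num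
  · rw [e]; have := Real.exp_neg_one_gt_d9; linarith

theorem main : (∃ ν : Measure ℕ, IsProbabilityMeasure ν ∧ Integrable (fun ξ : ℕ => (ξ : ℝ)) ν ∧
    0 < ∫ ξ, (ξ : ℝ) ∂ν ∧ ∫ ξ, (ξ : ℝ) ∂ν < Real.exp (-1)) ∧
    ∀ ν : Measure ℕ, IsProbabilityMeasure ν → 0 < ∫ ξ, (ξ : ℝ) ∂ν →
    ∃ (C : ℝ) (h ε : ℝ → ℝ), 0 < C ∧ InH h ∧ InE h ε ∧ ∀ x : ℕ × ℝ, 1 ≤ x.2 →
      ¬ ∃ μ : Measure (ℝ × ℝ), IsProbabilityMeasure μ ∧ ∀ A, MeasurableSet A →
        Tendsto (fun n => (T ν C h ε)^[n] (fun y => A.indicator 1 ((y.1 : ℝ), y.2)) x)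
          atTop (𝓝 (μ.real A)) :=
  ⟨ex, fun ν _ hm => main1 ν hm⟩

end

end Pool.Agent.H.MP_b612d4_pr
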